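import Mathlib
import Pool.Agent.Q223.VF.Poly2

/-!
# The polytope move graph in a volume window with a greatest element is disconnected
-/

set_option autoImplicit false

namespace Pool.Agent.Results.MP_208a82_co.ClosedAbove

open MeasureTheory Module Pool.Agent.Q223.Poly
open scoped Pointwise

/-- a full-dimensional polytope in `ℝ^d` -/
def IsPolytope {d : ℕ} (P : Set (EuclideanSpace ℝ (Fin d))) : Prop :=
  (∃ S : Set (EuclideanSpace ℝ (Fin d)), S.Finite ∧ P = convexHull ℝ S) ∧ (interior P).Nonempty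

/-- `Q` arises from `P` by the insertion of a point `x` -/
def Insertion {d : ℕ} (P Q : Set (EuclideanSpace ℝ (Fin d))) : Prop :=
  ∃ x, x ∉ P ∧ Q = convexHull ℝ (insert x P) ∧ Q.extremePoints ℝ = insert x (P.extremePoints ℝ)

/-- the move graph on the full-dimensional polytopes whose volume lies in `I` -/
def moveGraph (d : ℕ) (I : Set ℝ) :
    SimpleGraph {P : Set (EuclideanSpace ℝ (Fin d)) // IsPolytope P ∧ (volume P).toReal ∈ I} where
  Adj P Q := Insertion P.1 Q.1 ∨ Insertion Q.1 P.1
  symm := ⟨fun _ _ h => h.symm⟩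
  loopless := ⟨fun P h => by
    have key : ¬ Insertion P.1 P.1 := by
      rintro ⟨x, hx, h1, -⟩
      exact hx (h1 ▸ subset_convexHull ℝ _ (Set.mem_insert x _))
    rcases h with h | h
    · exact key h
    · exact key h⟩

variable {d : ℕ}

theorem IsPolytope.isCompact {P : Set (EuclideanSpace ℝ (Fin d))} (h : IsPolytope P) :
    IsCompact P := by
  obtain ⟨⟨S, hS, rfl⟩, -⟩ := h
  exact hS.isCompact_convexHull (𝕜 := ℝ)

theorem IsPolytope.convex {P : Set (EuclideanSpace ℝ (Fin d))} (h : IsPolytope P) :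
    Convex ℝ P := by
  obtain ⟨⟨S, -, rfl⟩, -⟩ := h
  exact convex_convexHull ℝ S

/-- insertions increase the volume -/
theorem volume_lt {P Q : Set (EuclideanSpace ℝ (Fin d))} (hP : IsPolytope P) (hQ : IsPolytope Q)
    (h : Insertion P Q) : (volume P).toReal < (volume Q).toReal := by
  obtain ⟨x, hx, h1, -⟩ := h
  have hPQ : P ⊆ Q := by
    rw [h1]; exact (Set.subset_insert x P).trans (subset_convexHull ℝ _)
  have hxQ : x ∈ Q := by rw [h1]; exact subset_convexHull ℝ _ (Set.mem_insert x P)
  -- a point of the interior of `Q` outside `P`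
  obtain ⟨y, hy⟩ := hP.2
  have hyQ : y ∈ interior Q := interior_mono hPQ hy
  have hopen : IsOpen (interior Q \ P) := isOpen_interior.sdiff hP.isCompact.isClosed
  have hne : (interior Q \ P).Nonempty := by
    have hcont : Filter.Tendsto (fun t : ℝ => x + t • (y - x)) (nhdsWithin 0 (Set.Ioi 0))
        (nhds x) := by
      have : Continuous fun t : ℝ => x + t • (y - x) := by fun_prop
      have h2 := this.tendsto 0
      simp only [zero_smul, add_zero] at h2
      exact h2.mono_left nhdsWithin_le_nhds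
    have h2 : ∀ᶠ t in nhdsWithin (0 : ℝ) (Set.Ioi 0), x + t • (y - x) ∈ Pᶜ :=
      hcont (hP.isCompact.isClosed.isOpen_compl.mem_nhds hx)
    have h3 : ∀ᶠ t in nhdsWithin (0 : ℝ) (Set.Ioi 0), t ∈ Set.Ioc (0 : ℝ) 1 :=
      Ioc_mem_nhdsGT one_pos
    obtain ⟨t, ht1, ht2⟩ := (h2.and h3).exists
    refine ⟨x + t • (y - x), ?_, ht1⟩
    exact hQ.convex.add_smul_sub_mem_interior hxQ hyQ ht2
  have hpos : 0 < volume (interior Q \ P) := hopen.measure_pos volume hne
  have hfinP : volume P ≠ ⊤ := hP.isCompact.measure_lt_top.ne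
  have hfinQ : volume Q ≠ ⊤ := hQ.isCompact.measure_lt_top.ne
  rw [ENNReal.toReal_lt_toReal hfinP hfinQ]
  calc volume P < volume P + volume (interior Q \ P) :=
        ENNReal.lt_add_right hfinP hpos.ne'
    _ = volume (P ∪ (interior Q \ P)) :=
        (measure_union Set.disjoint_sdiff_right hopen.measurableSet).symm
    _ ≤ volume Q := measure_mono (Set.union_subset hPQ (Set.sdiff_subset.trans interior_subset))

/-- the extreme points of a full-dimensional polytope are more than `d` in number -/
theorem card_ext {P : Set (EuclideanSpace ℝ (Fin d))} (hP : IsPolytope P) :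
    (P.extremePoints ℝ).Finite ∧ d + 1 ≤ (P.extremePoints ℝ).ncard := by
  obtain ⟨⟨S, hS, rfl⟩, hint⟩ := hP
  have hSne : S.Nonempty := by
    rw [← convexHull_nonempty_iff (𝕜 := ℝ)]
    exact hint.mono interior_subset
  obtain ⟨hfin, hne, -, hhull⟩ := conf_polytope hS hSne
  refine ⟨hfin, ?_⟩
  by_contra hlt
  push Not at hlt
  have haff : affineSpan ℝ ((convexHull ℝ S).extremePoints ℝ) = ⊤ := by
    apply affineSpan_eq_top_of_nonempty_interior
    rw [hhull]
    exact hint
  have h1 : vectorSpan ℝ ((convexHull ℝ S).extremePoints ℝ) = ⊤ := by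
    rw [← direction_affineSpan, haff, AffineSubspace.direction_top]
  have : Fintype ((convexHull ℝ S).extremePoints ℝ) := hfin.fintype
  have hpos : 0 < ((convexHull ℝ S).extremePoints ℝ).ncard := by
    rw [Set.ncard_pos hfin]; exact hne
  have h2 := finrank_vectorSpan_range_le ℝ
    (fun v : (convexHull ℝ S).extremePoints ℝ => (v : EuclideanSpace ℝ (Fin d)))
    (n := ((convexHull ℝ S).extremePoints ℝ).ncard - 1)
    (by rw [← Nat.card_eq_fintype_card, Nat.card_coe_set_eq]; omega)
  rw [Subtype.range_val, h1, finrank_top, finrank_euclideanSpace, Fintype.card_fin] at h2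
  omega

/-- for every `v > 0` there is a polytope of volume `v` with at most `d + 1` vertices -/
theorem exists_simplex (d : ℕ) (hd : d ≠ 0) {v : ℝ} (hv : 0 < v) :
    ∃ P : Set (EuclideanSpace ℝ (Fin d)), IsPolytope P ∧ (volume P).toReal = v ∧
      (P.extremePoints ℝ).ncard ≤ d + 1 := by
  classical
  obtain ⟨b⟩ := AffineBasis.exists_affineBasis_of_finiteDimensional (ι := Fin (d + 1)) (k := ℝ)
    (P := EuclideanSpace ℝ (Fin d)) (by simp)
  set S : Set (EuclideanSpace ℝ (Fin d)) := Set.range b with hS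
  have hint : (interior (convexHull ℝ S)).Nonempty := by
    rw [interior_convexHull_nonempty_iff_affineSpan_eq_top]
    exact b.tot
  have hSf : S.Finite := Set.finite_range _
  have hcomp : IsCompact (convexHull ℝ S) := hSf.isCompact_convexHull (𝕜 := ℝ)
  have hvol : 0 < volume (convexHull ℝ S) :=
    (isOpen_interior.measure_pos volume hint).trans_le (measure_mono interior_subset)
  have hvol' : 0 < (volume (convexHull ℝ S)).toReal :=
    ENNReal.toReal_pos hvol.ne' hcomp.measure_lt_top.ne
  set a := (volume (convexHull ℝ S)).toReal with ha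
  set c : ℝ := (v / a) ^ ((d : ℝ)⁻¹) with hc
  have hc0 : 0 < c := Real.rpow_pos_of_pos (div_pos hv hvol') _
  have hcd : c ^ d = v / a := by
    rw [hc]; exact Real.rpow_inv_natCast_pow (div_pos hv hvol').le hd
  refine ⟨c • convexHull ℝ S, ⟨⟨c • S, hSf.smul_set, ?_⟩, ?_⟩, ?_, ?_⟩
  · rw [convexHull_smul]
  · rw [interior_smul₀ hc0.ne']
    exact hint.smul_set
  · rw [Measure.addHaar_smul, ENNReal.toReal_mul, ENNReal.toReal_ofReal (abs_nonneg _),
      finrank_euclideanSpace, Fintype.card_fin, hcd, abs_of_pos (div_pos hv hvol'), ← ha]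
    field_simp
  · rw [← convexHull_smul]
    have h1 : (convexHull ℝ (c • S)).extremePoints ℝ ⊆ c • S := extremePoints_convexHull_subset
    refine (Set.ncard_le_ncard h1 hSf.smul_set).trans ?_
    have h2 : c • S = Set.range fun i => c • b i := by
      rw [hS, ← Set.range_smul]
    rw [h2]
    have h3 := Set.ncard_le_ncard (Set.Subset.refl (Set.range fun i => c • b i))
    calc (Set.range fun i => c • b i).ncard = ((fun i => c • b i) '' Set.univ).ncard := by
          rw [Set.image_univ]
      _ ≤ (Set.univ : Set (Fin (d + 1))).ncard := Set.ncard_image_le Set.finite_univ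
      _ = d + 1 := by rw [Set.ncard_univ]; simp

/-- In every dimension `d ≥ 2`, and for every non-trivial interval `I ⊆ (0, ∞)` with a greatest
element (for instance every `[a, b]` and every `(a, b]`), the move graph is not connected: each
simplex whose volume is the greatest element of `I` is an isolated vertex, and there are others. -/
theorem result : ∀ (d : ℕ), 2 ≤ d → ∀ (I : Set ℝ), I ⊆ Set.Ioi 0 → I.OrdConnected →
    I.Nontrivial → ∀ M : ℝ, IsGreatest I M →
    (∃ P, ∀ Q, ¬ (moveGraph d I).Adj P Q) ∧ ¬ (moveGraph d I).Connected := by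
  intro d hd I hI _ hnt M hM
  obtain ⟨P, hP, hvP, hcP⟩ := exists_simplex d (by omega) (hI hM.1)
  have hPI : (volume P).toReal ∈ I := hvP ▸ hM.1
  have hiso : ∀ Q, ¬ (moveGraph d I).Adj ⟨P, hP, hPI⟩ Q := by
    rintro ⟨Q, hQ, hQI⟩ (h | h)
    · have h1 := volume_lt hP hQ h
      have h2 := hM.2 hQI
      change (volume P).toReal < _ at h1
      rw [hvP] at h1
      linarith
    · obtain ⟨x, hx, -, h2⟩ := h
      change P.extremePoints ℝ = insert x (Q.extremePoints ℝ) at h2
      obtain ⟨hf, hc⟩ := card_ext hQ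
      have hx' : x ∉ Q.extremePoints ℝ := fun h => hx (extremePoints_subset h)
      rw [h2, Set.ncard_insert_of_notMem hx' hf] at hcP
      omega
  refine ⟨⟨⟨P, hP, hPI⟩, hiso⟩, fun hcon => ?_⟩
  obtain ⟨M', hM', hne⟩ := hnt.exists_ne M
  obtain ⟨Q, hQ, hvQ, -⟩ := exists_simplex d (by omega) (hI hM')
  have hQI : (volume Q).toReal ∈ I := hvQ ▸ hM'
  have hPQ : (⟨P, hP, hPI⟩ : {P : Set (EuclideanSpace ℝ (Fin d)) //
      IsPolytope P ∧ (volume P).toReal ∈ I}) ≠ ⟨Q, hQ, hQI⟩ := by
    intro h
    have h1 : P = Q := congrArg Subtype.val h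
    rw [← h1, hvP] at hvQ
    exact hne hvQ.symm
  obtain ⟨w⟩ := hcon.preconnected ⟨P, hP, hPI⟩ ⟨Q, hQ, hQI⟩
  cases w with
  | nil => exact hPQ rfl
  | cons h _ => exact hiso _ h

end Pool.Agent.Results.MP_208a82_co.ClosedAbove
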